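import Pool.Agent.Helper60.EV2.Exist

/-!
# Oriented link diagrams in rows, the Conway polynomial (MP_ea8a26_gt, project EV2)

A diagram is read from top to bottom. The state at a level is the list of the directions of the strands (`true` = downwards), from left to right.
A row consists of an extremum, followed by crossings:

* `mx k d`: a maximum; it inserts two strands with the directions `d`, `!d` at the positions `k`, `k + 1`;
* `mn k`: a minimum; it joins the strands `k`, `k + 1`, which have opposite directions;
* a crossing `k` (a letter of the word `w` of the row): the strands `k`, `k + 1`, which both go downwards, cross.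

The shadow of a word is a `Sh` (`Pool.Agent.Helper85.EV2.Exp`); a diagram `Dg` on it is given by the status of every crossing: positive, negative or
smoothed (in the oriented way). `Cs` (`Pool.Agent.Helper60.EV2.Exist`) are the properties of the Conway polynomial.
-/

set_option autoImplicit false

namespace Pool.Agent.Helper27.EV2

open Polynomial Pool.Agent.Helper85.Exp Pool.Agent.Helper60.EV2

/-! ### Diagrams in rows -/

/-- Extrema. -/
inductive Ext
  | mx (k : ℕ) (d : Bool)
  | mn (k : ℕ)
  deriving DecidableEq

/-- The directions of the strands below an extremum. -/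
def Ext.act : Ext → List Bool → List Bool
  | .mx k d, l => l.take k ++ d :: (!d) :: l.drop k
  | .mn k, l => l.take k ++ l.drop (k + 2)

/-- The extremum is possible. -/
def Ext.Ok : Ext → List Bool → Prop
  | .mx k _, l => k ≤ l.length
  | .mn k, l => ∃ d, l[k]? = some d ∧ l[k + 1]? = some (!d)

/-- A row: an extremum and a word of crossings. -/
structure Row where
  e : Ext
  w : List ℕ

/-- A word of rows, from top to bottom. -/
abbrev Word : Type := List Row

/-- The row `r`. -/
def row (W : Word) (r : ℕ) : Row := W.getD r ⟨.mn 0, []⟩

/-- The directions of the strands above the row `r`; the directions in the crossings of the row `r` are `lv W (r + 1)`. -/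
def lv (W : Word) (r : ℕ) : List Bool := (W.take r).foldl (fun l x => x.e.act l) []

/-- The word is a closed diagram. -/
structure Ok (W : Word) : Prop where
  ext : ∀ r < W.length, (row W r).e.Ok (lv W r)
  cr : ∀ r < W.length, ∀ k ∈ (row W r).w, (lv W (r + 1))[k]? = some true ∧ (lv W (r + 1))[k + 1]? = some true
  closed : lv W W.length = []

/-- The number of maxima. -/
def maxima (W : Word) : ℕ := (W.filter fun x => match x.e with | .mx _ _ => true | .mn _ => false).length

/-- The number of crossings. -/
def crossings (W : Word) : ℕ := (W.map fun x => x.w.length).sum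

/-- The points (passages) of a word: `(r, i, j)` is the strand `j` after `i` crossings of the row `r`. -/
@[ext] structure Pt (W : Word) where
  r : ℕ
  i : ℕ
  j : ℕ
  hr : r < W.length
  hi : i ≤ (row W r).w.length
  hj : j < (lv W (r + 1)).length
  deriving DecidableEq

/-- The points as a finite type. -/
def Pt.equiv (W : Word) : Pt W ≃ Σ r : Fin W.length, Fin ((row W r).w.length + 1) × Fin (lv W (r + 1)).length where
  toFun p := ⟨⟨p.r, p.hr⟩, ⟨p.i, Nat.lt_succ_of_le p.hi⟩, ⟨p.j, p.hj⟩⟩
  invFun q := ⟨q.1, q.2.1, q.2.2, q.1.2, Nat.le_of_lt_succ q.2.1.2, q.2.2.2⟩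
  left_inv _ := rfl
  right_inv _ := rfl

theorem Pt.finite (W : Word) : Finite (Pt W) := Finite.of_equiv _ (Pt.equiv W).symm

noncomputable instance (W : Word) : Fintype (Pt W) := @Fintype.ofFinite _ (Pt.finite W)

/-- The direction of the strand `j` in the row `r`. -/
def dir (W : Word) (r j : ℕ) : Bool := (lv W (r + 1)).getD j false

/-- Exchange `k` and `k + 1`. -/
def sw (k j : ℕ) : ℕ := if j = k then k + 1 else if j = k + 1 then k else j

/-- The next point, travelling along the link (all crossings unsmoothed). -/
def nxRaw (W : Word) (r i j : ℕ) : ℕ × ℕ × ℕ :=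
  if dir W r j then
    if i < (row W r).w.length then (r, i + 1, sw ((row W r).w.getD i 0) j)
    else match (row W (r + 1)).e with
      | .mx k _ => (r + 1, 0, if j < k then j else j + 2)
      | .mn k => if j < k then (r + 1, 0, j) else if j = k then (r, i, k + 1) else if j = k + 1 then (r, i, k)
          else (r + 1, 0, j - 2)
  else
    if 0 < i then (r, i - 1, j)
    else match (row W r).e with
      | .mx k _ => if j < k then (r - 1, (row W (r - 1)).w.length, j) else if j = k then (r, 0, k + 1)
          else if j = k + 1 then (r, 0, k) else (r - 1, (row W (r - 1)).w.length, j - 2)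
      | .mn k => (r - 1, (row W (r - 1)).w.length, if j < k then j else j + 2)

/-- The point with the coordinates `q` if there is one, otherwise `p`. -/
def mk (W : Word) (q : ℕ × ℕ × ℕ) (p : Pt W) : Pt W :=
  if h : q.1 < W.length ∧ q.2.1 ≤ (row W q.1).w.length ∧ q.2.2 < (lv W (q.1 + 1)).length then ⟨q.1, q.2.1, q.2.2, h.1, h.2.1, h.2.2⟩
  else p

/-- The crossing `k` below the point `p` has two downward strands, and `p` lies on one of them. -/
def Cro {W : Word} (p : Pt W) : Prop :=
  p.i < (row W p.r).w.length ∧ dir W p.r ((row W p.r).w.getD p.i 0) = true ∧
    dir W p.r ((row W p.r).w.getD p.i 0 + 1) = true ∧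
    (row W p.r).w.getD p.i 0 + 1 < (lv W (p.r + 1)).length ∧
    (p.j = (row W p.r).w.getD p.i 0 ∨ p.j = (row W p.r).w.getD p.i 0 + 1)

instance {W : Word} (p : Pt W) : Decidable (Cro p) := by unfold Cro; infer_instance

/-- The other strand of the crossing. -/
def op {W : Word} (p : Pt W) : Pt W :=
  if Cro p then mk W (p.r, p.i, sw ((row W p.r).w.getD p.i 0) p.j) p else p

theorem sw_sw (k j : ℕ) : sw k (sw k j) = j := by
  unfold sw
  split_ifs <;> omega

theorem sw_mem {k j : ℕ} (h : j = k ∨ j = k + 1) : sw k j = k ∨ sw k j = k + 1 := by
  unfold sw
  split_ifs <;> omega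

theorem op_of_not {W : Word} {p : Pt W} (h : ¬ Cro p) : op p = p := if_neg h

theorem sw_lt {k j n : ℕ} (hk : k + 1 < n) (hj : j < n) : sw k j < n := by
  unfold sw
  split_ifs <;> omega

theorem op_of {W : Word} {p : Pt W} (h : Cro p) :
    op p = ⟨p.r, p.i, sw ((row W p.r).w.getD p.i 0) p.j, p.hr, p.hi, sw_lt h.2.2.2.1 p.hj⟩ := by
  unfold op mk
  rw [if_pos h, dif_pos ⟨p.hr, p.hi, sw_lt h.2.2.2.1 p.hj⟩]

theorem op_op {W : Word} (p : Pt W) : op (op p) = p := by
  by_cases h : Cro p
  · have h2 : Cro (op p) := by
      rw [op_of h]
      exact ⟨h.1, h.2.1, h.2.2.1, h.2.2.2.1, sw_mem h.2.2.2.2⟩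
    rw [op_of h2]
    ext
    · simp [op_of h]
    · simp [op_of h]
    · simp only [op_of h]
      exact sw_sw _ _
  · rw [op_of_not h, op_of_not h]

/-- The next point. -/
def nx {W : Word} (p : Pt W) : Pt W := mk W (nxRaw W p.r p.i p.j) p

/-- The left one of the two strands of the crossing below `p`: the other strand crosses from the left to the right, seen in the direction of travel. -/
def lf {W : Word} (p : Pt W) : Bool := decide (p.j = (row W p.r).w.getD p.i 0)

namespace Inj

/-! ### Lists of directions -/

theorem act_mx_length {l : List Bool} {k : ℕ} (hk : k ≤ l.length) (d : Bool) :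
    ((Ext.mx k d).act l).length = l.length + 2 := by
  simp only [Ext.act, List.length_append, List.length_take, List.length_cons, List.length_drop]
  omega

theorem act_mn_length {l : List Bool} {k : ℕ} (hk : k + 1 < l.length) :
    ((Ext.mn k).act l).length + 2 = l.length := by
  simp only [Ext.act, List.length_append, List.length_take, List.length_drop]
  omega

theorem act_mx_getD {l : List Bool} {k : ℕ} (hk : k ≤ l.length) (d : Bool) (j : ℕ) :
    ((Ext.mx k d).act l).getD j false =
      if j < k then l.getD j false else if j = k then d else if j = k + 1 then !d else l.getD (j - 2) false := by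
  simp only [Ext.act, List.getD_eq_getElem?_getD]
  split_ifs with h1 h2 h3
  · rw [List.getElem?_append_left (by rw [List.length_take]; omega), List.getElem?_take, if_pos h1]
  · subst h2
    rw [List.getElem?_append_right (by rw [List.length_take]; omega)]
    have : j - (l.take j).length = 0 := by rw [List.length_take]; omega
    rw [this]
    rfl
  · subst h3
    rw [List.getElem?_append_right (by rw [List.length_take]; omega)]
    have : k + 1 - (l.take k).length = 1 := by rw [List.length_take]; omega
    rw [this]
    rfl
  · rw [List.getElem?_append_right (by rw [List.length_take]; omega)]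
    have : j - (l.take k).length = (j - 2 - k) + 2 := by rw [List.length_take]; omega
    rw [this]
    simp only [List.getElem?_cons_succ, List.getElem?_drop]
    congr 2
    omega

theorem act_mn_getD {l : List Bool} {k : ℕ} (hk : k + 1 < l.length) (j : ℕ) :
    ((Ext.mn k).act l).getD j false = if j < k then l.getD j false else l.getD (j + 2) false := by
  simp only [Ext.act, List.getD_eq_getElem?_getD]
  split_ifs with h1
  · rw [List.getElem?_append_left (by rw [List.length_take]; omega), List.getElem?_take, if_pos h1]
  · rw [List.getElem?_append_right (by rw [List.length_take]; omega)]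
    have : j - (l.take k).length = j - k := by rw [List.length_take]; omega
    rw [this, List.getElem?_drop]
    congr 2
    omega

theorem lv_succ {W : Word} {r : ℕ} (hr : r < W.length) : lv W (r + 1) = (row W r).e.act (lv W r) := by
  unfold lv row
  rw [List.take_add_one, List.foldl_append, List.getD_eq_getElem?_getD, List.getElem?_eq_getElem hr]
  simp

theorem lv_zero (W : Word) : lv W 0 = [] := by simp [lv]

theorem mn_lt {l : List Bool} {k : ℕ} (h : (Ext.mn k).Ok l) : k + 1 < l.length := by
  obtain ⟨d, h1, h2⟩ := h
  exact (List.getElem?_eq_some_iff.1 h2).1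

theorem mn_opp {l : List Bool} {k : ℕ} (h : (Ext.mn k).Ok l) : l.getD (k + 1) false = !(l.getD k false) := by
  obtain ⟨d, h1, h2⟩ := h
  simp [List.getD_eq_getElem?_getD, h1, h2]

theorem cr_dir {W : Word} (hW : Ok W) {r i : ℕ} (hr : r < W.length) (hi : i < (row W r).w.length) :
    dir W r ((row W r).w.getD i 0) = true ∧ dir W r ((row W r).w.getD i 0 + 1) = true ∧
      (row W r).w.getD i 0 + 1 < (lv W (r + 1)).length := by
  have hm : (row W r).w.getD i 0 ∈ (row W r).w := by
    rw [List.getD_eq_getElem?_getD, List.getElem?_eq_getElem hi]
    exact List.getElem_mem hi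
  obtain ⟨h1, h2⟩ := hW.cr r hr _ hm
  refine ⟨?_, ?_, (List.getElem?_eq_some_iff.1 h2).1⟩
  · show (lv W (r + 1)).getD _ false = true
    rw [List.getD_eq_getElem?_getD (l := lv W (r + 1)), h1]
    rfl
  · show (lv W (r + 1)).getD _ false = true
    rw [List.getD_eq_getElem?_getD (l := lv W (r + 1)), h2]
    rfl

/-- the point before, travelling along the link -/
def pvRaw (W : Word) (r i j : ℕ) : ℕ × ℕ × ℕ :=
  if dir W r j then
    if 0 < i then (r, i - 1, sw ((row W r).w.getD (i - 1) 0) j)
    else match (row W r).e with
      | .mx k _ => if j < k then (r - 1, (row W (r - 1)).w.length, j) else if j = k then (r, 0, k + 1)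
          else if j = k + 1 then (r, 0, k) else (r - 1, (row W (r - 1)).w.length, j - 2)
      | .mn k => (r - 1, (row W (r - 1)).w.length, if j < k then j else j + 2)
  else
    if i < (row W r).w.length then (r, i + 1, j)
    else match (row W (r + 1)).e with
      | .mx k _ => (r + 1, 0, if j < k then j else j + 2)
      | .mn k => if j < k then (r + 1, 0, j) else if j = k then (r, i, k + 1) else if j = k + 1 then (r, i, k)
          else (r + 1, 0, j - 2)

/-- valid coordinates -/
def Vd (W : Word) (q : ℕ × ℕ × ℕ) : Prop :=
  q.1 < W.length ∧ q.2.1 ≤ (row W q.1).w.length ∧ q.2.2 < (lv W (q.1 + 1)).length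

theorem nx_valid {W : Word} (hW : Ok W) {r i j : ℕ} (h : Vd W (r, i, j)) :
    Vd W (nxRaw W r i j) ∧
      pvRaw W (nxRaw W r i j).1 (nxRaw W r i j).2.1 (nxRaw W r i j).2.2 = (r, i, j) := by
  obtain ⟨hr, hi, hj⟩ := h
  simp only at hr hi hj
  have hmxd : ∀ {r : ℕ}, r < W.length → ∀ {k : ℕ} {d : Bool}, (row W r).e = .mx k d →
      k ≤ (lv W r).length ∧ (lv W (r + 1)).length = (lv W r).length + 2 ∧ ∀ j, dir W r j =
        if j < k then (lv W r).getD j false else if j = k then d else if j = k + 1 then !d
          else (lv W r).getD (j - 2) false := by
    intro r hr k d he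
    have h1 := hW.ext r hr
    rw [he] at h1
    have h2 : k ≤ (lv W r).length := h1
    refine ⟨h2, ?_, fun j => ?_⟩
    · rw [lv_succ hr, he, act_mx_length h2]
    · unfold dir
      rw [lv_succ hr, he, act_mx_getD h2]
  have hmnd : ∀ {r : ℕ}, r < W.length → ∀ {k : ℕ}, (row W r).e = .mn k →
      k + 1 < (lv W r).length ∧ (lv W (r + 1)).length + 2 = (lv W r).length ∧
        (lv W r).getD (k + 1) false = !((lv W r).getD k false) ∧ ∀ j, dir W r j =
        if j < k then (lv W r).getD j false else (lv W r).getD (j + 2) false := by
    intro r hr k he
    have h1 := hW.ext r hr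
    rw [he] at h1
    have h2 := mn_lt h1
    refine ⟨h2, ?_, mn_opp h1, fun j => ?_⟩
    · rw [lv_succ hr, he, act_mn_length h2]
    · unfold dir
      rw [lv_succ hr, he, act_mn_getD h2]
  by_cases hd : dir W r j = true
  · by_cases hil : i < (row W r).w.length
    · have hc := cr_dir hW hr hil
      have e : nxRaw W r i j = (r, i + 1, sw ((row W r).w.getD i 0) j) := by
        unfold nxRaw
        rw [if_pos hd, if_pos hil]
      rw [e]
      simp only
      have hds : dir W r (sw ((row W r).w.getD i 0) j) = true := by
        unfold sw
        split_ifs
        · exact hc.2.1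
        · exact hc.1
        · exact hd
      refine ⟨⟨hr, hil, ?_⟩, ?_⟩
      · exact sw_lt hc.2.2 hj
      · unfold pvRaw
        rw [if_pos hds, if_pos (by omega)]
        simp only [Nat.add_sub_cancel]
        rw [sw_sw]
    · have hi' : i = (row W r).w.length := by omega
      have hr1 : r + 1 < W.length := by
        by_contra hcon
        have : r + 1 = W.length := by omega
        rw [this, hW.closed] at hj
        simp at hj
      cases he : (row W (r + 1)).e with
      | mx k d =>
        have e : nxRaw W r i j = (r + 1, 0, if j < k then j else j + 2) := by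
          unfold nxRaw
          rw [if_pos hd, if_neg hil, he]
        obtain ⟨g1, g2, g3⟩ := hmxd hr1 he
        have hdd : dir W (r + 1) (if j < k then j else j + 2) = true := by
          rw [g3]
          by_cases hjk : j < k
          · rw [if_pos hjk, if_pos hjk]
            exact hd
          · rw [if_neg hjk, if_neg (by omega), if_neg (by omega), if_neg (by omega)]
            have : j + 2 - 2 = j := by omega
            rw [this]
            exact hd
        rw [e]
        simp only
        refine ⟨⟨hr1, Nat.zero_le _, ?_⟩, ?_⟩
        · simp only
          rw [g2]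
          split_ifs <;> omega
        · unfold pvRaw
          rw [if_pos hdd, if_neg (by omega), he]
          simp only [Nat.add_sub_cancel]
          by_cases hjk : j < k
          · simp only [if_pos hjk]
            rw [hi']
          · simp only [if_neg hjk]
            rw [if_neg (by omega), if_neg (by omega), if_neg (by omega), hi']
            simp
      | mn k =>
        obtain ⟨g1, g2, g3, g4⟩ := hmnd hr1 he
        have e : nxRaw W r i j = if j < k then (r + 1, 0, j) else if j = k then (r, i, k + 1)
            else if j = k + 1 then (r, i, k) else (r + 1, 0, j - 2) := by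
          unfold nxRaw
          rw [if_pos hd, if_neg hil, he]
        rw [e]
        split_ifs with h1 h2 h3
        · simp only
          have hdd : dir W (r + 1) j = true := by
            rw [g4, if_pos h1]
            exact hd
          refine ⟨⟨hr1, Nat.zero_le _, by simp only; omega⟩, ?_⟩
          unfold pvRaw
          rw [if_pos hdd, if_neg (by omega), he]
          simp only [if_pos h1, Nat.add_sub_cancel]
          rw [hi']
        · simp only
          subst h2
          have hdd : ¬ dir W r (j + 1) = true := by
            have : dir W r (j + 1) = !(dir W r j) := g3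
            rw [this, hd]
            simp
          refine ⟨⟨hr, hi, by simp only; omega⟩, ?_⟩
          unfold pvRaw
          rw [if_neg hdd, if_neg hil, he]
          simp only
          rw [if_neg (by omega), if_neg (by omega)]
          simp
        · simp only
          subst h3
          have hdd : ¬ dir W r k = true := by
            have : dir W r (k + 1) = !(dir W r k) := g3
            rw [this] at hd
            simpa using hd
          refine ⟨⟨hr, hi, by simp only; omega⟩, ?_⟩
          unfold pvRaw
          rw [if_neg hdd, if_neg hil, he]
          simp only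
          rw [if_neg (by omega)]
          simp
        · simp only
          have hdd : dir W (r + 1) (j - 2) = true := by
            rw [g4, if_neg (by omega)]
            have : j - 2 + 2 = j := by omega
            rw [this]
            exact hd
          refine ⟨⟨hr1, Nat.zero_le _, by simp only; omega⟩, ?_⟩
          unfold pvRaw
          rw [if_pos hdd, if_neg (by omega), he]
          simp only [Nat.add_sub_cancel]
          rw [if_neg (by omega), hi']
          simp only [Prod.mk.injEq, true_and]
          omega
  · by_cases hi0 : 0 < i
    · have e : nxRaw W r i j = (r, i - 1, j) := by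
        unfold nxRaw
        rw [if_neg hd, if_pos hi0]
      rw [e]
      simp only
      refine ⟨⟨hr, by simp only; omega, hj⟩, ?_⟩
      unfold pvRaw
      rw [if_neg hd, if_pos (by omega)]
      simp only [Prod.mk.injEq, true_and, and_true]
      omega
    · have hi0' : i = 0 := by omega
      subst hi0'
      cases he : (row W r).e with
      | mx k d =>
        obtain ⟨g1, g2, g3⟩ := hmxd hr he
        have hg := g3 j
        have e : nxRaw W r 0 j = if j < k then (r - 1, (row W (r - 1)).w.length, j) else if j = k then (r, 0, k + 1)
            else if j = k + 1 then (r, 0, k) else (r - 1, (row W (r - 1)).w.length, j - 2) := by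
          unfold nxRaw
          rw [if_neg hd, if_neg hi0, he]
        rw [e]
        split_ifs with h1 h2 h3
        · simp only
          rw [if_pos h1] at hg
          have hr0 : r ≠ 0 := by
            rintro rfl
            rw [lv_zero] at g1
            simp at g1
            omega
          obtain ⟨r, rfl⟩ := Nat.exists_eq_succ_of_ne_zero hr0
          simp only [Nat.succ_eq_add_one, Nat.add_sub_cancel] at *
          have hdd : ¬ dir W r j = true := by
            rw [hg] at hd
            exact hd
          refine ⟨⟨by simp only; omega, le_refl _, by simp only; omega⟩, ?_⟩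
          unfold pvRaw
          rw [if_neg hdd, if_neg (by omega), he]
          simp only [if_pos h1]
        · simp only
          subst h2
          have hdd : dir W r (j + 1) = true := by
            rw [if_neg (by omega), if_pos rfl] at hg
            rw [g3, if_neg (by omega), if_neg (by omega), if_pos rfl]
            rw [hg] at hd
            simpa using hd
          refine ⟨⟨hr, Nat.zero_le _, by simp only; omega⟩, ?_⟩
          unfold pvRaw
          rw [if_pos hdd, if_neg (by omega), he]
          simp only
          rw [if_neg (by omega), if_neg (by omega)]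
          simp
        · simp only
          subst h3
          have hdd : dir W r k = true := by
            rw [if_neg (by omega), if_neg (by omega), if_pos rfl] at hg
            rw [g3, if_neg (by omega), if_pos rfl]
            rw [hg] at hd
            simpa using hd
          refine ⟨⟨hr, Nat.zero_le _, by simp only; omega⟩, ?_⟩
          unfold pvRaw
          rw [if_pos hdd, if_neg (by omega), he]
          simp only
          rw [if_neg (by omega)]
          simp
        · simp only
          rw [if_neg h1, if_neg h2, if_neg h3] at hg
          have hr0 : r ≠ 0 := by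
            rintro rfl
            rw [g2, lv_zero] at hj
            simp at hj
            omega
          obtain ⟨r, rfl⟩ := Nat.exists_eq_succ_of_ne_zero hr0
          simp only [Nat.succ_eq_add_one, Nat.add_sub_cancel] at *
          have hdd : ¬ dir W r (j - 2) = true := by
            rw [hg] at hd
            exact hd
          refine ⟨⟨by simp only; omega, le_refl _, by simp only; omega⟩, ?_⟩
          unfold pvRaw
          rw [if_neg hdd, if_neg (by omega), he]
          simp only
          rw [if_neg (by omega)]
          simp only [Prod.mk.injEq, true_and]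
          omega
      | mn k =>
        obtain ⟨g1, g2, g3, g4⟩ := hmnd hr he
        have hr0 : r ≠ 0 := by
          rintro rfl
          rw [lv_zero] at g1
          simp at g1
        obtain ⟨r, rfl⟩ := Nat.exists_eq_succ_of_ne_zero hr0
        simp only [Nat.succ_eq_add_one] at *
        have hg := g4 j
        have e : nxRaw W (r + 1) 0 j = (r, (row W r).w.length, if j < k then j else j + 2) := by
          unfold nxRaw
          rw [if_neg hd, if_neg hi0, he]
          simp
        rw [e]
        simp only
        have hdd : ¬ dir W r (if j < k then j else j + 2) = true := by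
          rw [hg] at hd
          split_ifs at hd ⊢ with h1
          · exact hd
          · exact hd
        refine ⟨⟨by simp only; omega, le_refl _, ?_⟩, ?_⟩
        · simp only
          split_ifs <;> omega
        · unfold pvRaw
          rw [if_neg hdd, if_neg (by omega), he]
          simp only
          by_cases h1 : j < k
          · simp only [if_pos h1]
          · simp only [if_neg h1]
            rw [if_neg (by omega), if_neg (by omega), if_neg (by omega)]
            simp

end Inj

theorem nx_inj {W : Word} (hW : Ok W) : Function.Injective (nx : Pt W → Pt W) := by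
  have key : ∀ p : Pt W, ∃ h : Inj.Vd W (nxRaw W p.r p.i p.j), nx p = ⟨_, _, _, h.1, h.2.1, h.2.2⟩ := by
    intro p
    have h := (Inj.nx_valid hW (r := p.r) (i := p.i) (j := p.j) ⟨p.hr, p.hi, p.hj⟩).1
    refine ⟨h, ?_⟩
    unfold nx mk
    rw [dif_pos ⟨h.1, h.2.1, h.2.2⟩]
  intro p q hpq
  obtain ⟨h1, e1⟩ := key p
  obtain ⟨h2, e2⟩ := key q
  rw [e1, e2] at hpq
  have a1 := congrArg Pt.r hpq
  have a2 := congrArg Pt.i hpq
  have a3 := congrArg Pt.j hpq
  simp only at a1 a2 a3
  have b1 := (Inj.nx_valid hW (r := p.r) (i := p.i) (j := p.j) ⟨p.hr, p.hi, p.hj⟩).2
  have b2 := (Inj.nx_valid hW (r := q.r) (i := q.i) (j := q.j) ⟨q.hr, q.hi, q.hj⟩).2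
  rw [a1, a2, a3, b2] at b1
  simp only [Prod.mk.injEq] at b1
  exact Pt.ext b1.1.symm b1.2.1.symm b1.2.2.symm

theorem lf_op {W : Word} (p : Pt W) (h : op p ≠ p) : lf (op p) = !lf p := by
  by_cases hc : Cro p
  · have h2 := hc.2.2.2.2
    unfold lf
    simp only [op_of hc]
    generalize (row W p.r).w.getD p.i 0 = k at h2 ⊢
    rcases h2 with h2 | h2
    · simp [h2, sw]
    · simp [h2, sw]
  · exact absurd (op_of_not hc) h

/-- The shadow of a word. -/
noncomputable def shadow (W : Word) (hW : Ok W) : Sh (Pt W) where
  nxt := Equiv.ofBijective nx (Finite.injective_iff_bijective.1 (nx_inj hW))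
  op := op
  op_op := op_op
  lf := lf
  lf_op := lf_op

/-- The diagram all of whose crossings are positive. -/
def allPos {P : Type} (G : Sh P) : Dg G := ⟨fun _ => .pos, fun _ => rfl⟩

end Pool.Agent.Helper27.EV2
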