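import Pool.Agent.Helper57.EV2.Last

/-!
# EV2: there are finitely many words with a bounded number of maxima and crossings
-/

set_option autoImplicit false

namespace Pool.Agent.Helper27.EV2

theorem finite_lists {α : Type*} {S : Set α} (hS : S.Finite) (n : ℕ) :
    {l : List α | l.length ≤ n ∧ ∀ a ∈ l, a ∈ S}.Finite := by
  haveI := hS.to_subtype
  refine ((List.finite_length_le S n).image (List.map Subtype.val)).subset ?_
  rintro l ⟨h1, h2⟩
  lift l to List S using h2
  exact ⟨l, by simpa using h1, rfl⟩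

theorem width_le {W : Word} (hW : Ok W) {b : ℕ} (hb : maxima W ≤ b) {r : ℕ} (hr : r ≤ W.length) :
    (lv W r).length ≤ 2 * b := by
  have h1 := Pool.Agent.Helper57.EV2.lv_length hW r hr
  have h2 : maxima (W.take r) ≤ maxima W := by
    conv_rhs => rw [← List.take_append_drop r W]
    rw [Pool.Agent.Helper57.EV2.maxima_append]
    exact Nat.le_add_right _ _
  omega

theorem letters_le {W : Word} {x : Row} (hx : x ∈ W) : x.w.length ≤ crossings W := by
  unfold crossings
  exact List.le_sum_of_mem (List.mem_map_of_mem hx)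

/-- There are finitely many words with at most `b` maxima and at most `m` crossings. -/
theorem finite_words (b m : ℕ) : {W : Word | Ok W ∧ maxima W ≤ b ∧ crossings W ≤ m}.Finite := by
  have hE : {e : Ext | ∃ k ≤ 2 * b, (∃ d, e = .mx k d) ∨ e = .mn k}.Finite := by
    have h1 : ((fun q : ℕ × Bool × Bool => if q.2.1 then Ext.mx q.1 q.2.2 else Ext.mn q.1) ''
        (Set.Iic (2 * b) ×ˢ Set.univ)).Finite := ((Set.finite_Iic _).prod Set.finite_univ).image _
    refine h1.subset ?_
    rintro e ⟨k, hk, ⟨d, rfl⟩ | rfl⟩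
    · exact ⟨(k, true, d), ⟨hk, trivial⟩, rfl⟩
    · exact ⟨(k, false, false), ⟨hk, trivial⟩, rfl⟩
  have hR : {x : Row | x.e ∈ {e : Ext | ∃ k ≤ 2 * b, (∃ d, e = .mx k d) ∨ e = .mn k} ∧
      x.w ∈ {l : List ℕ | l.length ≤ m ∧ ∀ a ∈ l, a ∈ Set.Iio (2 * b)}}.Finite := by
    have h1 := (hE.prod (finite_lists (Set.finite_Iio (2 * b)) m)).image
      (fun q : Ext × List ℕ => (⟨q.1, q.2⟩ : Row))
    refine h1.subset ?_
    rintro ⟨e, w⟩ ⟨he, hw⟩
    exact ⟨(e, w), ⟨he, hw⟩, rfl⟩
  refine (finite_lists hR (2 * b)).subset ?_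
  rintro W ⟨hW, hb, hm⟩
  refine ⟨?_, ?_⟩
  · rw [Pool.Agent.Helper57.EV2.length_word hW]
    omega
  · intro x hx
    obtain ⟨r, hr, rfl⟩ := List.mem_iff_getElem.1 hx
    have e : W[r] = row W r := by
      unfold row
      rw [List.getD_eq_getElem?_getD, List.getElem?_eq_getElem hr]
      rfl
    refine ⟨?_, (letters_le hx).trans hm, ?_⟩
    · have h1 := hW.ext r hr
      have h2 := width_le hW hb hr.le
      rw [e]
      cases he : (row W r).e with
      | mx k d =>
        rw [he] at h1
        exact ⟨k, (show k ≤ (lv W r).length from h1).trans h2, Or.inl ⟨d, rfl⟩⟩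
      | mn k =>
        rw [he] at h1
        obtain ⟨d, h3, -⟩ := h1
        have h4 := (List.getElem?_eq_some_iff.1 h3).1
        exact ⟨k, by omega, Or.inr rfl⟩
    · intro a ha
      rw [e] at ha
      have h1 := (List.getElem?_eq_some_iff.1 (hW.cr r hr a ha).1).1
      have h2 := width_le hW hb (r := r + 1) hr
      show a < 2 * b
      omega

end Pool.Agent.Helper27.EV2
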