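import Pool.Agent.Helper57.EV2.Fin
import Pool.Agent.Helper85.EV2.RowS
import Pool.Agent.Helper27.EV2.FinSet

/-!
# EV2: the final theorem
-/

set_option autoImplicit false

namespace Pool.Agent.Helper27.EV2

open Polynomial Pool.Agent.Helper85.Exp Pool.Agent.Helper60.EV2

theorem final (b : ℕ) : ∃ m₀ : ℕ, ∀ (W : Word) (hW : Ok W), maxima W ≤ b → m₀ ≤ crossings W →
    ∀ nab : Dg (shadow W hW) → ℤ[X], Cs nab → ∀ j : ℕ,
      (nab (allPos _)).coeff j * (nab (allPos _)).coeff (j + 4) ≤ (nab (allPos _)).coeff (j + 2) ^ 2 :=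
  Pool.Agent.Helper57.EV2.fin_of (fun _ hW hne => Pool.Agent.Helper85.Rows.exists_conway hW hne)
    (fun _ hW hne _ h D _ hs => Pool.Agent.Helper85.Rows.form hW hne h D hs) b

end Pool.Agent.Helper27.EV2
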