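import Pool.Agent.Helper27.EV2.Defs

/-!
# EV2: the edge matrix, the flow recursion, the small matrix `Q`
-/

set_option autoImplicit false

namespace Pool.Agent.Helper27.EV2

open Polynomial Pool.Agent.Helper85.Exp Pool.Agent.Helper60.EV2

/-- The diagram is connected. -/
def Conn (W : Word) : Prop :=
  ∀ C : Pt W → Prop, (∃ v, C v) → (∀ v, C (nx v) ↔ C v) → (∀ v, C (op v) ↔ C v) → ∀ v, C v

/-! ### Words: the flow recursion -/

/-- The number of births above the row `r`. -/
def nb (W : Word) (r : ℕ) : ℕ := maxima (W.take r)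

/-- Insert `a, b` at the positions `k, k + 1`. -/
def ins {M : Type} (k : ℕ) (a b : M) (u : ℕ → M) : ℕ → M := fun j =>
  if j < k then u j else if j = k then a else if j = k + 1 then b else u (j - 2)

/-- Delete the positions `k, k + 1`. -/
def del {M : Type} (k : ℕ) (u : ℕ → M) : ℕ → M := fun j => if j < k then u j else u (j + 2)

section Rec

variable {R M : Type} [CommRing R] [AddCommGroup M] [Module R M]

/-- A crossing `k` of the status `a` acts on the flow. -/
def fl (t ti : R) (a : St) (k : ℕ) (u : ℕ → M) : ℕ → M :=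
  match a with
  | .pos => fun j => if j = k then t • u (k + 1) else if j = k + 1 then u k + (1 - t) • u (k + 1) else u j
  | .neg => fun j => if j = k then u (k + 1) + (1 - ti) • u k else if j = k + 1 then ti • u k else u j
  | .smooth => u

/-- The flow after `i` letters of the word `w`. -/
def frun (t ti : R) (σ : ℕ → St) (w : List ℕ) (u : ℕ → M) : ℕ → ℕ → M
  | 0 => u
  | i + 1 => fl t ti (σ i) (w.getD i 0) (frun t ti σ w u i)

/-- An extremum acts on the flow; `ξ b` on the new downward strand, `η b` on the new upward strand. -/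
def fext {M : Type} (e : Ext) (b : ℕ) (ξ η : ℕ → M) (u : ℕ → M) : ℕ → M :=
  match e with
  | .mx k d => ins k (if d then ξ b else η b) (if d then η b else ξ b) u
  | .mn k => del k u

/-- The flow above the row `r`. -/
def flow (W : Word) (t ti : R) (σ : ℕ → ℕ → St) (ξ η : ℕ → M) : ℕ → ℕ → M
  | 0 => 0
  | r + 1 => frun t ti (σ r) (row W r).w (fext (row W r).e (nb W r) ξ η (flow W t ti σ ξ η r)) (row W r).w.length

/-- The flow at the points `(r, i, ·)`. -/
def flowI (W : Word) (t ti : R) (σ : ℕ → ℕ → St) (ξ η : ℕ → M) (r i : ℕ) : ℕ → M :=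
  frun t ti (σ r) (row W r).w (fext (row W r).e (nb W r) ξ η (flow W t ti σ ξ η r)) i

/-- The number of the birth of the upward strands above the row `r`. -/
def lab (W : Word) : ℕ → ℕ → ℕ
  | 0 => 0
  | r + 1 => match (row W r).e with
    | .mx k _ => ins k (nb W r) (nb W r) (lab W r)
    | .mn k => del k (lab W r)

/-- The value which arrives at the birth `i` (at the minimum at the other end of the upward strand of the birth `i`). -/
def Q (W : Word) (t ti : R) (σ : ℕ → ℕ → St) (ξ : ℕ → M) (i : ℕ) : M :=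
  ∑ r ∈ Finset.range W.length, match (row W r).e with
    | .mx _ _ => 0
    | .mn k => if (lv W r).getD k false = true then (if lab W r (k + 1) = i then flow W t ti σ ξ 0 r k else 0)
        else (if lab W r k = i then flow W t ti σ ξ 0 r (k + 1) else 0)

/-- The small matrix; the row of the base is zero. -/
def Qm (W : Word) (t ti : R) (σ : ℕ → ℕ → St) : Matrix (Fin (maxima W)) (Fin (maxima W)) R := fun i j =>
  if (i : ℕ) = 0 then 0 else Q W t ti σ (fun a => if a = (j : ℕ) then (1 : R) else 0) i

end Rec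

/-- The status of the crossing `i` of the row `r`. -/
def stat {W : Word} {hW : Ok W} (D : Dg (shadow W hW)) (r i : ℕ) : St :=
  if h : r < W.length ∧ i ≤ (row W r).w.length ∧ (row W r).w.getD i 0 < (lv W (r + 1)).length then
    D.st ⟨r, i, (row W r).w.getD i 0, h.1, h.2.1, h.2.2⟩
  else .pos

/-- The writhe of a descending knot diagram on `W`. -/
def w0 (W : Word) : ℤ :=
  ∑ r ∈ Finset.range W.length, match (row W r).e with
    | .mx _ d => if r = 0 then (if d then 0 else -1) else (if d then -1 else 0)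
    | .mn k => if (lv W r).getD k false = true then 0 else 1

/-- The base point: the downward strand of the first maximum. -/
def IsBase {W : Word} (b : Pt W) : Prop := b.r = 0 ∧ b.i = 0 ∧ dir W 0 b.j = true

/-- All crossings are positive. -/
def ps : ℕ → ℕ → St := fun _ _ => .pos

/-- `G(t) = det (1 - Q)` for the positive diagram. -/
noncomputable def GG (W : Word) (t : ℂ) : ℂ := (1 - Qm W t t⁻¹ ps).det

/-- `G` as an integer polynomial. -/
noncomputable def GP (W : Word) : ℤ[X] := (1 - Qm W (X : ℤ[X]) 0 ps).det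

/-! ### Gap values -/

/-- `s = exp (-(x + i y))` -/
noncomputable def ss (x y : ℝ) : ℂ := Complex.exp (-((x : ℂ) + y * Complex.I))

/-- A letter acts on gap values. -/
def lt (s : ℂ) (k : ℕ) (c : ℕ → ℂ) : ℕ → ℂ := fun j =>
  if j = k + 1 then s * (c k + c (k + 2)) - s ^ 2 * c (k + 1) else c j

/-- A word acts on gap values, the first letter first. -/
def Ev (s : ℂ) (w : List ℕ) (c : ℕ → ℂ) : ℕ → ℂ := w.foldl (fun c k => lt s k c) c

/-- The energy of a strand. -/
noncomputable def En (x y : ℝ) (a b : ℂ) : ℝ :=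
  Real.cosh x * Real.cos y * (‖a‖ ^ 2 + ‖b‖ ^ 2) / 2 - ((starRingEnd ℂ) a * b).re

/-- The index of the gap `j` in the row `r`. -/
def ka (W : Word) (r j : ℕ) : ℤ := ∑ l ∈ Finset.range j, if dir W r l then 1 else -1

/-- The gap values of a flow in the row `r`. -/
noncomputable def gap (W : Word) (s : ℂ) (r : ℕ) (u : ℕ → ℂ) (j : ℕ) : ℂ :=
  s ^ (ka W r j) * ∑ l ∈ Finset.range j, if dir W r l then u l else -u l

/-- The number of strands in the row `r`. -/
def nn (W : Word) (r : ℕ) : ℕ := (lv W (r + 1)).length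

/-- Gap values of all rows with errors at most `ρ`: `c r` above and `c' r` below the crossings of the row `r`. -/
structure CL (W : Word) (s : ℂ) (ρ : ℝ) (c c' : ℕ → ℕ → ℂ) : Prop where
  left : ∀ r < W.length, c r 0 = 0
  first : ∀ j ≤ 2, ‖c 0 j‖ ≤ ρ
  run : ∀ r < W.length, ∀ j ≤ nn W r, c' r j = Ev s (row W r).w (c r) j
  mn : ∀ r, r + 1 < W.length → ∀ k, (row W (r + 1)).e = .mn k →
    c' r k = c' r (k + 2) ∧ (∀ j ≤ k, c (r + 1) j = c' r j) ∧ ∀ j, k ≤ j → j ≤ nn W (r + 1) → c (r + 1) j = c' r (j + 2)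
  mx : ∀ r, r + 1 < W.length → ∀ k d, (row W (r + 1)).e = .mx k d →
    (∀ j ≤ k, c (r + 1) j = c' r j) ∧ ∀ j, k ≤ j → j ≤ nn W r → ‖c (r + 1) (j + 2) - c' r j‖ ≤ ρ

end Pool.Agent.Helper27.EV2
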